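import Pool.Agent.V7H67.PA.Final

/-!
# MP_cc6759_lc: the average finite `π`-adic complexity is `n / 2 + O(1)`

In both cases of the problem, `E_n^fin = n / 2 + O(1)`, with a constant independent of `n`.

The proof. For a sequence `a` of `n` digits, with value `A`, the pairs `(f, g)` with
`f ≡ g A` modulo `π ^ n` form a lattice of covolume `N ^ n` in `R × R`. By a count with ideals
(multiplication by `g` on `R / π ^ n` has kernel and cokernel of the same size, and the cokernel
has small representatives) at most `K N ^ (2 m)` of the `N ^ n` sequences have a nonzero pair of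
size at most `m` in their lattice. This gives the lower bound. If there is no nonzero pair of size
`s`, then by the pigeonhole principle, used first for pairs of digit sequences of
length `n - s + O(1)` and then in an ideal modulo a power of `π`, there are two
independent pairs of size at most `n - s + O(1)`, and these give a pair with `g ≡ 1` modulo `π`
of size at most `n - s + O(1)`. This gives the upper bound.

It is not used that `R` is a unique factorisation domain, only that it is a domain.
-/

set_option autoImplicit false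

namespace Pool.Agent.Results.MP_cc6759_lc.AverageFiniteH67

open Pool.Agent.V7H67.PA

universe u

/-- `E_n^fin = n / 2 + O(1)` in both cases of the problem. In case (i), `R = ℤ[π]` with
`π ^ 2 = -N` and the size of `u + v π` is `log_N (u ^ 2 + N v ^ 2)`. In case (ii), `R = ℤ[π]` with
`π ^ d = N`, the elements of `R` are uniquely `∑ i < d, u_i π ^ i`, and the size of such an element
is the maximum of `d log_N |u_i| + i` over the `i` with `u_i ≠ 0`. (In both cases the size of `0`
is `0` by the conventions for real logarithms and suprema; as the size of a nonzero element is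
nonnegative and `g ≠ 0`, this does not matter for `max (φ f) (φ g)`.) -/
theorem result :
    (∀ (R : Type u) [CommRing R] [IsDomain R] (π : R) (N : ℕ) (φ : R → ℝ),
      2 ≤ N → π ^ 2 = -(N : R) →
      (∀ x : R, ∃! p : ℤ × ℤ, x = (p.1 : R) + (p.2 : R) * π) →
      (∀ u v : ℤ, φ ((u : R) + (v : R) * π) =
        Real.logb N ((u : ℝ) ^ 2 + N * (v : ℝ) ^ 2)) →
      ∃ C : ℝ, ∀ n : ℕ, |avgFin π φ N n - (n : ℝ) / 2| ≤ C) ∧
    (∀ (R : Type u) [CommRing R] [IsDomain R] (π : R) (d N : ℕ) (φ : R → ℝ),
      1 ≤ d → 2 ≤ N → π ^ d = (N : R) →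
      (∀ x : R, ∃! u : Fin d → ℤ, x = ∑ i, (u i : R) * π ^ (i : ℕ)) →
      (∀ u : Fin d → ℤ, φ (∑ i, (u i : R) * π ^ (i : ℕ)) =
        sSup {t : ℝ | ∃ i : Fin d, u i ≠ 0 ∧ t = d * Real.logb N |(u i : ℝ)| + (i : ℕ)}) →
      ∃ C : ℝ, ∀ n : ℕ, |avgFin π φ N n - (n : ℝ) / 2| ≤ C) :=
  ⟨fun _ _ _ π N φ hN hπ hb hφ => case_one π N φ hN hπ hb hφ,
    fun _ _ _ π d N φ hd hN hπ hb hφ => case_two π d N φ hd hN hπ hb hφ⟩

end Pool.Agent.Results.MP_cc6759_lc.AverageFiniteH67
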